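import Pool.Agent.H669.FW.Lin
import Pool.Agent.H669.FW.One

/-!
# The Fröberg–Iarrobino conjecture in `n` variables for almost all triples

Let `n ≥ 3`. There is a constant `C = C(n)` such that

* for EVERY `d ≥ 1` the triple `(n, r, d)` is expected for all `r` but at most `C d ^ (n - 2)`
  numbers `r` (the numbers `r` for which the `d`-th powers do not span all forms of degree `d` are
  those below `binom (n + d - 1) (n - 1)`, which is about `d ^ (n - 1) / (n - 1)!`);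
* for every `r ≥ 3 ^ (n - 1)` it is expected for all `d` outside a set of density at most
  `C / (ρ - 1)`, `ρ = r ^ (1 / (n - 1))`;
* if `r ≥ (C + 1) ^ (n - 1)`, then for EVERY `d` the Hilbert series of the quotient by the `d`-th
  powers of `r` generic linear forms is the expected one up to at most ONE coefficient.

Proof. By the duality of Emsalem and Iarrobino the quotient in degree `k` is dual to the forms of
degree `k` with multiplicity `m = k + 1 - d` at `r` general points of the projective space of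
dimension `n - 1`. By the theorem of the team on bounded windows (`AllMultiplicitiesWindow` of
`MP_b56c98_ag`) the dimension is the expected one if the distance between `k` and the critical degree
`T(m) = (r m (m + 1) ⋯ (m + n - 2)) ^ (1 / (n - 1))` is at least a constant. Since
`T(m + 1) ≥ T(m) + ρ` (superadditivity of the geometric mean), for a given `d` the degrees
`k = d + m - 1` move away from `T(m)` with speed `ρ - 1`, and the bad pairs `(r, d)` can be counted.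
-/

set_option autoImplicit false

namespace Pool.Agent.Results.MP_9e2f2c_ag.AlmostAllTriples

open MvPolynomial

/-- The Hilbert function of the quotient of `ℂ[x_1, …, x_n]` by the ideal generated by the `d`-th
powers of the linear forms `∑ i, a (s, i) * x_i`, in degree `k`. -/
noncomputable def hilb {n r : ℕ} (d : ℕ) (a : Fin r × Fin n → ℂ) (k : ℕ) : ℤ :=
  (Module.finrank ℂ (MvPolynomial.homogeneousSubmodule (Fin n) ℂ k) : ℤ) -
    (Module.finrank ℂ
      ↥(Submodule.restrictScalars ℂ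
          (Ideal.span (Set.range fun s : Fin r =>
            (∑ i : Fin n, C (a (s, i)) * X i : MvPolynomial (Fin n) ℂ) ^ d)) ⊓
        MvPolynomial.homogeneousSubmodule (Fin n) ℂ k) : ℤ)

/-- The coefficient of `t ^ k` in `(1 - t) ^ (-n) * (1 - t ^ d) ^ r`. -/
noncomputable def co (n r d k : ℕ) : ℤ :=
  PowerSeries.coeff k
    ((PowerSeries.mk fun _ => (1 : ℤ)) ^ n * (1 - PowerSeries.X ^ d) ^ r)

open Classical in
/-- The coefficient of `t ^ k` in the series `F_{n,r,d}`, that is, of `(1 - t ^ d) ^ r / (1 - t) ^ n`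
truncated at its first coefficient that is not positive. -/
noncomputable def fro (n r d k : ℕ) : ℤ :=
  if ∀ j ≤ k, 0 < co n r d j then co n r d k else 0

/-- For generic linear forms the Hilbert function of the quotient by the `d`-th powers is the
expected one in all degrees `k ∈ S`. -/
def ExpectedIn (n r d : ℕ) (S : Set ℕ) : Prop :=
  ∃ P : MvPolynomial (Fin r × Fin n) ℂ, P ≠ 0 ∧
    ∀ a : Fin r × Fin n → ℂ, MvPolynomial.eval a P ≠ 0 → ∀ k ∈ S, hilb d a k = fro n r d k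

/-- The triple `(n, r, d)` is expected. -/
def Expected (n r d : ℕ) : Prop := ExpectedIn n r d Set.univ

/-- The critical degree for the multiplicity `m`: the number `T ≥ 0` with
`T ^ (n - 1) = r m (m + 1) ⋯ (m + n - 2)`. -/
noncomputable def critical (n r m : ℕ) : ℝ :=
  ((r : ℝ) * ∏ i ∈ Finset.range (n - 1), ((m : ℝ) + i)) ^ ((1 : ℝ) / (n - 1))

lemma mono {n r d : ℕ} {S S' : Set ℕ} (h : ExpectedIn n r d S) (hS : S' ⊆ S) :
    ExpectedIn n r d S' := by
  obtain ⟨P, h0, h1⟩ := h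
  exact ⟨P, h0, fun a ha k hk => h1 a ha k (hS hk)⟩

/-- The expected values outside a window of bounded length. -/
theorem outside (j : ℕ) : ∃ C : ℕ, ∀ r d : ℕ, 3 ^ (j + 2) ≤ r → 1 ≤ d →
    ExpectedIn (j + 3) r d {k | d ≤ k →
      (C : ℝ) ≤ |(k : ℝ) - Pool.Agent.H929.BW.crit (j + 2) r (k + 1 - d)|} := by
  obtain ⟨C, hC⟩ := Pool.Agent.H669.FW.lin j
  refine ⟨C, fun r d hr hd => ?_⟩
  obtain ⟨P, hP, h⟩ := hC r d hr hd ℂ
  refine ⟨P, hP, fun a ha k hk => ?_⟩
  have h5 : ∀ m, Pool.Agent.TH206.Fro.co (j + 3) (fun _ : Fin r => d) m = co (j + 3) r d m := by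
    intro m
    unfold Pool.Agent.TH206.Fro.co co
    rw [Finset.prod_const, Finset.card_univ, Fintype.card_fin]
  have h6 : Pool.Agent.TH206.Fro.fro (j + 3) (fun _ : Fin r => d) k = fro (j + 3) r d k := by
    unfold Pool.Agent.TH206.Fro.fro fro
    simp only [h5]
  rw [← h6]
  exact h a ha k hk

/-- **Main result.** For every `n ≥ 3` there is a constant `C` such that:

(1) for every `d ≥ 1` the triple `(n, r, d)` is expected for all `r` but at most `C d ^ (n - 2)`;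

(2) for every `r ≥ 3 ^ (n - 1)` and every `X` it is expected for all `1 ≤ d ≤ X` but at most
`C (X + C) / (ρ - 1)`, where `ρ = r ^ (1 / (n - 1))`;

(3) for every `r ≥ 3 ^ (n - 1)` and `d ≥ 1` there is a `k₀` such that the Hilbert function of the
quotient by the `d`-th powers of `r` generic linear forms is the expected one in all degrees
`k < k₀` and in all degrees `k ≥ k₀ + C / (ρ - 1)`; so, if `ρ ≥ C + 1`, in all degrees but `k₀`;

(4) for `r ≥ 3 ^ (n - 1)` and `d ≥ 1` it is the expected one in all degrees `k < d` and in all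
degrees `k` whose distance from the critical degree for the multiplicity `k + 1 - d` is at least
`C`. -/
theorem result (n : ℕ) (hn : 3 ≤ n) : ∃ C : ℕ,
    (∀ d : ℕ, 1 ≤ d → {r : ℕ | ¬ Expected n r d}.Finite ∧
      ({r : ℕ | ¬ Expected n r d}.ncard : ℝ) ≤ C * (d : ℝ) ^ (n - 2)) ∧
    ∀ r : ℕ, 3 ^ (n - 1) ≤ r →
      (∀ X : ℕ, ((r : ℝ) ^ ((1 : ℝ) / (n - 1)) - 1) *
        ({d : ℕ | 1 ≤ d ∧ d ≤ X ∧ ¬ Expected n r d}.ncard : ℝ) ≤ C * (X + C)) ∧
      ∀ d : ℕ, 1 ≤ d →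
        (∃ k₀ : ℕ, ExpectedIn n r d
          {k | k < k₀ ∨ (C : ℝ) ≤ ((r : ℝ) ^ ((1 : ℝ) / (n - 1)) - 1) * ((k : ℝ) - k₀)}) ∧
        ((C + 1) ^ (n - 1) ≤ r → ∃ k₀ : ℕ, ExpectedIn n r d {k | k ≠ k₀}) ∧
        ExpectedIn n r d {k | k < d ∨ (C : ℝ) ≤ |(k : ℝ) - critical n r (k + 1 - d)|} := by
  obtain ⟨j, rfl⟩ : ∃ j, n = j + 3 := ⟨n - 3, by omega⟩
  have e1 : j + 3 - 1 = j + 2 := rfl
  have e2 : j + 3 - 2 = j + 1 := rfl
  obtain ⟨C₀, hC₀⟩ := outside j
  obtain ⟨A, hA⟩ := Pool.Agent.H669.FW.card_bad_r (j + 1) (by omega) C₀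
  rw [e1, e2]
  have hgood : ∀ r d : ℕ, 3 ^ (j + 2) ≤ r → 1 ≤ d → (¬ ∃ m : ℕ, 1 ≤ m ∧
      |(d : ℝ) + m - 1 - Pool.Agent.H929.BW.crit (j + 2) r m| < C₀) → Expected (j + 3) r d := by
    intro r d hr hd h
    refine mono (hC₀ r d hr hd) fun k _ hk => ?_
    by_contra hcon
    push Not at hcon
    refine h ⟨k + 1 - d, by omega, ?_⟩
    have e : (d : ℝ) + ((k + 1 - d : ℕ) : ℝ) - 1 = k := by
      rw [Nat.cast_sub (by omega)]
      push_cast
      ring
    rw [e]
    exact hcon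
  refine ⟨A + 3 ^ (j + 2) + 2 * C₀, fun d hd => ?_, fun r hr => ⟨fun X => ?_, fun d hd => ?_⟩⟩
  · -- most numbers of forms
    obtain ⟨hfin, hcard⟩ := hA d hd
    have hsub : {r : ℕ | ¬ Expected (j + 3) r d} ⊆ (Set.Iio (3 ^ (j + 2)) : Set ℕ) ∪
        {r : ℕ | 3 ^ (j + 1 + 1) ≤ r ∧ ∃ m : ℕ, 1 ≤ m ∧
          |(d : ℝ) + m - 1 - Pool.Agent.H929.BW.crit (j + 1 + 1) r m| < C₀} := by
      intro r hr
      rcases lt_or_ge r (3 ^ (j + 2)) with h | h
      · exact Or.inl h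
      · refine Or.inr ⟨h, ?_⟩
        by_contra hcon
        exact hr (hgood r d h hd hcon)
    have hfin2 := (Set.finite_Iio (3 ^ (j + 2))).union hfin
    refine ⟨hfin2.subset hsub, ?_⟩
    have h1 := (Set.ncard_le_ncard hsub hfin2).trans (Set.ncard_union_le _ _)
    have h2 : (Set.Iio (3 ^ (j + 2)) : Set ℕ).ncard = 3 ^ (j + 2) := by
      rw [← Finset.coe_Iio, Set.ncard_coe_finset, Nat.card_Iio]
    rw [h2] at h1
    have hdR : (1 : ℝ) ≤ (d : ℝ) ^ (j + 1) := one_le_pow₀ (by exact_mod_cast hd)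
    have h3 : ({r : ℕ | ¬ Expected (j + 3) r d}.ncard : ℝ) ≤ ((3 ^ (j + 2) : ℕ) : ℝ) +
        A * (d : ℝ) ^ (j + 1) :=
      le_trans (by exact_mod_cast h1) (add_le_add le_rfl hcard)
    have h4 : ((3 ^ (j + 2) : ℕ) : ℝ) ≤ ((3 ^ (j + 2) : ℕ) : ℝ) * (d : ℝ) ^ (j + 1) :=
      le_mul_of_one_le_right (Nat.cast_nonneg _) hdR
    have h5 : 0 ≤ 2 * (C₀ : ℝ) * (d : ℝ) ^ (j + 1) := by positivity
    push_cast at h3 h4 ⊢
    nlinarith
  · -- most degrees
    obtain ⟨hρ, hρr⟩ := Pool.Agent.H669.FW.root hr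
    have h1 := Pool.Agent.H669.FW.card_bad (j := j + 1) (r := r) (by linarith) hρr C₀ X
    have hsub : {d : ℕ | 1 ≤ d ∧ d ≤ X ∧ ¬ Expected (j + 3) r d} ⊆
        {δ : ℕ | 1 ≤ δ ∧ δ ≤ X ∧ ∃ m : ℕ, 1 ≤ m ∧
          |(δ : ℝ) + m - 1 - Pool.Agent.H929.BW.crit (j + 1 + 1) r m| < C₀} := by
      rintro d ⟨hd, hdX, hE⟩
      refine ⟨hd, hdX, ?_⟩
      by_contra hcon
      exact hE (hgood r d hr hd hcon)
    have hfin : {δ : ℕ | 1 ≤ δ ∧ δ ≤ X ∧ ∃ m : ℕ, 1 ≤ m ∧
          |(δ : ℝ) + m - 1 - Pool.Agent.H929.BW.crit (j + 1 + 1) r m| < C₀}.Finite :=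
      (Set.finite_Icc 1 X).subset fun δ hδ => ⟨hδ.1, hδ.2.1⟩
    have h2 : ({d : ℕ | 1 ≤ d ∧ d ≤ X ∧ ¬ Expected (j + 3) r d}.ncard : ℝ) ≤
        ({δ : ℕ | 1 ≤ δ ∧ δ ≤ X ∧ ∃ m : ℕ, 1 ≤ m ∧
          |(δ : ℝ) + m - 1 - Pool.Agent.H929.BW.crit (j + 1 + 1) r m| < C₀}.ncard : ℝ) := by
      exact_mod_cast Set.ncard_le_ncard hsub hfin
    refine (mul_le_mul_of_nonneg_left h2 (by linarith)).trans (h1.trans ?_)
    have h3 : (0 : ℝ) ≤ X := Nat.cast_nonneg X
    have h4 : (2 : ℝ) * C₀ ≤ ((A + 3 ^ (j + 2) + 2 * C₀ : ℕ) : ℝ) := by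
      push_cast
      have : (0 : ℝ) ≤ A := Nat.cast_nonneg A
      have : (0 : ℝ) ≤ 3 ^ (j + 2) := by positivity
      linarith
    have h5 : (C₀ : ℝ) ≤ ((A + 3 ^ (j + 2) + 2 * C₀ : ℕ) : ℝ) := by
      have : (0 : ℝ) ≤ C₀ := Nat.cast_nonneg C₀
      linarith
    exact mul_le_mul h4 (by linarith) (by positivity) (Nat.cast_nonneg _)
  · -- a given number of forms and a given degree
    obtain ⟨hρ, hρr⟩ := Pool.Agent.H669.FW.root hr
    set ρ : ℝ := (r : ℝ) ^ ((1 : ℝ) / (((j + 3 : ℕ) : ℝ) - 1)) with hρdef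
    have hC : (2 : ℝ) * C₀ ≤ ((A + 3 ^ (j + 2) + 2 * C₀ : ℕ) : ℝ) := by
      push_cast
      have : (0 : ℝ) ≤ A := Nat.cast_nonneg A
      have : (0 : ℝ) ≤ 3 ^ (j + 2) := by positivity
      linarith
    obtain ⟨k₀, hk₀⟩ := Pool.Agent.H669.FW.exists_first (j := j + 1) (r := r) d C₀
      (by linarith) hρr
    have hmain : ExpectedIn (j + 3) r d
        {k | k < k₀ ∨ 2 * (C₀ : ℝ) ≤ (ρ - 1) * ((k : ℝ) - k₀)} :=
      mono (hC₀ r d hr hd) fun k hk hδ => hk₀ k hk hδ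
    refine ⟨⟨k₀, mono hmain fun k hk => ?_⟩, fun hbig => ⟨k₀, mono hmain fun k hk => ?_⟩, ?_⟩
    · rcases hk with h | h
      · exact Or.inl h
      · exact Or.inr (hC.trans h)
    · have hρ2 : ((A + 3 ^ (j + 2) + 2 * C₀ : ℕ) : ℝ) + 1 ≤ ρ := by
        refine le_of_not_gt fun hcon => ?_
        have h1 := pow_lt_pow_left₀ hcon (by linarith) (by omega : j + 2 ≠ 0)
        rw [hρr] at h1
        have h2 : r < (A + 3 ^ (j + 2) + 2 * C₀ + 1) ^ (j + 2) := by exact_mod_cast h1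
        omega
      rcases lt_or_gt_of_ne (hk : k ≠ k₀) with h | h
      · exact Or.inl h
      · refine Or.inr ?_
        have h1 : (1 : ℝ) ≤ (k : ℝ) - k₀ := by
          have : (k₀ : ℝ) + 1 ≤ k := by exact_mod_cast h
          linarith
        have h2 : (2 : ℝ) * C₀ ≤ ρ - 1 := by linarith
        have h3 : (0 : ℝ) ≤ ρ - 1 := by linarith
        nlinarith
    · refine mono (hC₀ r d hr hd) fun k hk hδ => ?_
      rw [Pool.Agent.H669.FW.crit_eq]
      rcases hk with h | h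
      · omega
      · refine le_trans ?_ h
        have : (0 : ℝ) ≤ C₀ := Nat.cast_nonneg C₀
        linarith

end Pool.Agent.Results.MP_9e2f2c_ag.AlmostAllTriples
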